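import Mathlib
import Pool.Agent.Helper140.OneBend.Main

/-!
Compatible embeddings of two planar graphs that admit no simultaneous drawing with straight shared
edges and at most one bend per exclusive edge.

The notions `Pl`, `cr`, `Cyc`, `Drawing`, `Drawing.curve`, `Drawing.dir`, `Planar`, `SameRotation`,
`PlaneEquiv`, `SphereEquiv` are defined in `Pool.Agent.Helper140.OneBend.Defs`.
-/

namespace Pool.Agent.Results.MP_061339_co.NoOneBend

open Pool.OneBend

/-- `D` restricted to `G` realises the embedding of `G` given by the planar drawing `E`: the
cyclic orders of the edges at all vertices agree, and some homeomorphism of the sphere carries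
the drawing `E` of `G` to the drawing `D` of `G` (so the relative positions of the components
agree; the outer face is allowed to change). -/
def SameEmbedding {V : Type} (G : SimpleGraph V) (E D : Drawing V) : Prop :=
  SameRotation G E D ∧ SphereEquiv G E D

/-- `D` is a `(0,1)`-drawing of `G₁`, `G₂` realising the pair of embeddings `(E₁, E₂)`: vertices at
common positions, planar on `G₁` and on `G₂`, shared edges straight, every other edge straight or
with one bend, and both embeddings are realised. -/
structure ZeroOneDrawing {V : Type} (G₁ G₂ : SimpleGraph V) (E₁ E₂ D : Drawing V) : Prop where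
  planar₁ : Planar G₁ D
  planar₂ : Planar G₂ D
  straight : ∀ u v, G₁.Adj u v → G₂.Adj u v → D.bend s(u, v) = none
  realises₁ : SameEmbedding G₁ E₁ D
  realises₂ : SameEmbedding G₂ E₂ D

/-- Negative answer to the question: there are finite planar graphs `G₁`, `G₂` on a common vertex
set with embeddings `E₁`, `E₂` (given by planar drawings) which are compatible (they induce the
same embedding of the shared graph: same rotation system, and even a homeomorphism of the plane
carries one drawing of the shared graph to the other), such that no `(0,1)`-drawing realises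
`(E₁, E₂)`. -/
theorem result : ∃ (V : Type) (_ : Fintype V) (G₁ G₂ : SimpleGraph V) (E₁ E₂ : Drawing V),
    Planar G₁ E₁ ∧ Planar G₂ E₂ ∧
    SameRotation (G₁ ⊓ G₂) E₁ E₂ ∧ PlaneEquiv (G₁ ⊓ G₂) E₁ E₂ ∧
    ∀ D : Drawing V, ¬ ZeroOneDrawing G₁ G₂ E₁ E₂ D :=
  ⟨Vx, inferInstance, Gr A1, Gr A2, Dr c1, Dr c2, Dr_planar A1 c1, Dr_planar A2 c2,
    shared_rotation, shared_plane, fun D h =>
      no_drawing D h.planar₁ h.planar₂ h.straight h.realises₁.1 h.realises₁.2 h.realises₂.2⟩

end Pool.Agent.Results.MP_061339_co.NoOneBend
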